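import Pool.Agent.H79.UG.V1c

/-! # VAN, part V1: the statements used by part V2 -/

set_option autoImplicit false
set_option linter.unusedSectionVars false

open MvPolynomial

namespace Pool.Agent.H47.UG.FF

variable {K : Type} [Field K] [CharZero K] {n d : ℕ} {F : HP K n} (T : FF d F) (hF : Nice d F)

include hF

theorem φ_X (k : ℕ) (i : Fin (n + 2)) : T.φ k (X i) = monomial (mon 1 0 0 0) (C (T.x i)) :=
  T.φ_X' k i

theorem φ_X_pow (k : ℕ) (i : Fin (n + 2)) (N : ℕ) :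
    T.φ k (X i ^ N) = monomial (mon N 0 0 0) (C (T.x i ^ N)) :=
  T.φ_X_pow' k i N

theorem φ_X_ne (k : ℕ) (i : Fin (n + 2)) : (X i : VS K n k) ∉ RingHom.ker (T.φ k) :=
  T.φ_X_ne' k i

theorem φ_ker_hom (k : ℕ) (P : VS K n k) (hP : P ∈ RingHom.ker (T.φ k)) (e : ℕ) :
    homogeneousComponent e P ∈ RingHom.ker (T.φ k) :=
  T.φ_ker_hom' k P hP e

/-- forward dictionary -/
theorem dict_to (k p m q' : ℕ) (e : ℤ) (i : Fin (n + 2)) (v : T.BB)
    (hv : v ∈ T.GP k p e m (q' + p * n) i) : ∃ N₀ : ℕ, ∀ N ≥ N₀, ∀ c : ℕ,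
    (c : ℤ) = e + p * ((d : ℤ) - n - 2) - 2 * q' + N →
    ∃ P : VS K n k, P.IsHomogeneous c ∧ T.φ k P = monomial (mon c q' p m) (C (T.x i ^ N) * v) :=
  T.dict_to' k p m q' e i v hv

/-- backward dictionary -/
theorem dict_from (k : ℕ) (P : VS K n k) (c q' p m : ℕ) (i : Fin (n + 2)) :
    coeff (mon c q' p m) (T.φ k P) ∈
      T.GP k p (c + 2 * q' - p * ((d : ℤ) - n - 2)) m (q' + p * n) i :=
  T.dict_from' k P c q' p m i

theorem GP_xpow (k p : ℕ) (e : ℤ) (m q : ℕ) (i : Fin (n + 2)) (v : T.BB) (hv : v ∈ T.GP k p e m q i) (N : ℤ) :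
    C (T.x i ^ N) * v ∈ T.GP k p (e + N) m q i :=
  T.GP_xpow' N hv

theorem GP_bot (k p : ℕ) (e : ℤ) (m q : ℕ) (i : Fin (n + 2)) (h : q < p * n) : T.GP k p e m q i = ⊥ :=
  T.GP_bot' k p e m q i h

end Pool.Agent.H47.UG.FF
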