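import Pool.Agent.H79.UG.VDefs

/-!
# VAN, part V1: the map `φ` is graded, its kernel is homogeneous
-/

set_option autoImplicit false

open MvPolynomial

namespace Pool.Agent.H47.UG.FF

theorem mon_add (c q p m c' q' p' m' : ℕ) :
    mon c q p m + mon c' q' p' m' = mon (c + c') (q + q') (p + p') (m + m') := by
  ext j
  fin_cases j <;> simp [mon]

theorem mon_smul (N c q p m : ℕ) : N • mon c q p m = mon (N * c) (N * q) (N * p) (N * m) := by
  ext j
  fin_cases j <;> simp [mon]

theorem mon_zero : mon 0 0 0 0 = 0 := by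
  ext j
  fin_cases j <;> simp [mon]

/-- the weight of `τ` -/
def wτ : Fin 4 → ℕ := ![1, 0, 0, 0]

theorem weight_mon (c q p m : ℕ) : Finsupp.weight wτ (mon c q p m) = c := by
  rw [Finsupp.weight_apply, Finsupp.sum_fintype _ _ (by simp)]
  simp [mon, wτ, Fin.sum_univ_four]

variable {K : Type} [Field K] {n d : ℕ} {F : HP K n} (T : FF d F)

section

theorem φA_X (k : ℕ) (j : VIx n k) : T.φA k (X j) = T.vgen j := aeval_X _ _

theorem φ_X' (k : ℕ) (i : Fin (n + 2)) : T.φ k (X i) = monomial (mon 1 0 0 0) (C (T.x i)) :=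
  eval₂Hom_X' _ _ _

theorem φ_C' (k : ℕ) (b : VA K n k) : T.φ k (C b) = T.φA k b := eval₂Hom_C _ _ _

theorem φ_X_pow' (k : ℕ) (i : Fin (n + 2)) (N : ℕ) :
    T.φ k (X i ^ N) = monomial (mon N 0 0 0) (C (T.x i ^ N)) := by
  rw [map_pow, φ_X', monomial_pow, mon_smul, ← C_pow, mul_one, mul_zero]

theorem vgen_hom {k : ℕ} (j : VIx n k) : IsWeightedHomogeneous wτ (T.vgen j) 0 := by
  rcases j with ⟨s, a, b⟩ | c
  · exact isWeightedHomogeneous_monomial _ _ _ (weight_mon _ _ _ _)
  · exact isWeightedHomogeneous_monomial _ _ _ (weight_mon _ _ _ _)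

theorem φA_hom (k : ℕ) (b : VA K n k) : IsWeightedHomogeneous wτ (T.φA k b) 0 := by
  induction b using MvPolynomial.induction_on with
  | C r =>
    rw [← algebraMap_eq, AlgHom.commutes, IsScalarTower.algebraMap_apply K T.BB T.VB, algebraMap_eq]
    exact isWeightedHomogeneous_C _ _
  | add p q hp hq => rw [map_add]; exact hp.add hq
  | mul_X p j hp =>
    rw [map_mul, φA_X]
    have h := hp.mul (T.vgen_hom j)
    rwa [add_zero] at h

theorem φ_hom (k : ℕ) (P : VS K n k) (c : ℕ) (hP : P.IsHomogeneous c) :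
    IsWeightedHomogeneous wτ (T.φ k P) c := by
  classical
  rw [P.as_sum, map_sum]
  refine IsWeightedHomogeneous.sum _ _ _ fun α hα => ?_
  have h1 : T.φ k (monomial α (coeff α P)) = T.φA k (coeff α P) * ∏ i, T.φ k (X i) ^ α i := by
    rw [φ, eval₂Hom_monomial, Finsupp.prod_fintype _ _ (by simp)]
    congr 1
    refine Finset.prod_congr rfl fun i _ => ?_
    rw [eval₂Hom_X']
  have h2 : ∑ i, α i * 1 = c := by
    have h3 := hP (mem_support_iff.1 hα)
    rw [← h3, Finsupp.weight_apply, Finsupp.sum_fintype _ _ (by simp)]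
    simp
  rw [h1, show c = 0 + ∑ i, α i * 1 by rw [h2, zero_add]]
  refine (T.φA_hom k _).mul (IsWeightedHomogeneous.prod _ _ _ fun i _ => ?_)
  have h4 : IsWeightedHomogeneous wτ (T.φ k (X i)) 1 := by
    rw [φ_X']
    exact isWeightedHomogeneous_monomial _ _ _ (weight_mon _ _ _ _)
  exact h4.pow _

theorem φ_ker_hom' (k : ℕ) (P : VS K n k) (hP : P ∈ RingHom.ker (T.φ k)) (e : ℕ) :
    homogeneousComponent e P ∈ RingHom.ker (T.φ k) := by
  rw [RingHom.mem_ker] at hP ⊢
  have h1 : weightedHomogeneousComponent wτ e (T.φ k P) = T.φ k (homogeneousComponent e P) := by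
    conv_lhs => rw [← sum_homogeneousComponent P]
    rw [map_sum, map_sum]
    by_cases he : e ∈ Finset.range (P.totalDegree + 1)
    · rw [Finset.sum_eq_single e]
      · exact (T.φ_hom k _ e (homogeneousComponent_isHomogeneous e P)).weightedHomogeneousComponent_same
      · intro c _ hc
        exact (T.φ_hom k _ c (homogeneousComponent_isHomogeneous c P)).weightedHomogeneousComponent_ne _ hc.symm
      · intro h
        exact absurd he h
    · rw [Finset.sum_eq_zero, homogeneousComponent_eq_zero, map_zero]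
      · simpa using he
      · intro c hc
        refine (T.φ_hom k _ c (homogeneousComponent_isHomogeneous c P)).weightedHomogeneousComponent_ne _ ?_
        rintro rfl
        exact he hc
  rw [← h1, hP, map_zero]

theorem φ_X_ne' (k : ℕ) (i : Fin (n + 2)) : (X i : VS K n k) ∉ RingHom.ker (T.φ k) := by
  rw [RingHom.mem_ker, φ_X', monomial_eq_zero, C_eq_zero]
  exact T.x_ne i

end

end Pool.Agent.H47.UG.FF
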