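import Pool.Agent.H79.UG.V1a

/-!
# VAN, part V1: closure properties of `GG`, `GP`; the backward dictionary
-/

set_option autoImplicit false

open MvPolynomial

namespace Pool.Agent.H47.UG.FF

variable {K : Type} [Field K] {n d : ℕ} {F : HP K n} (T : FF d F)

section

theorem vδ_mul (s : ℕ) (u v : T.L) : T.δ s (u * v) = C u * T.δ s v + C v * T.δ s u := by
  unfold δ
  rw [Finset.mul_sum, Finset.mul_sum, ← Finset.sum_add_distrib]
  refine Finset.sum_congr rfl fun l _ => ?_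
  rw [Derivation.leibniz, smul_eq_mul, smul_eq_mul, C_add, C_mul, C_mul]
  ring

theorem tt_eq (s : ℕ) (a b i : Fin (n + 2)) : T.tt s a b = C (T.x i ^ (2 : ℤ)) *
    (C (T.x a / T.x i) * T.δ s (T.x b / T.x i) - C (T.x b / T.x i) * T.δ s (T.x a / T.x i)) := by
  have hi := T.x_ne i
  have h1 : ∀ b, T.x b = T.x i * (T.x b / T.x i) := fun b => by field_simp
  have h2 : ∀ b, T.δ s (T.x b) = C (T.x i) * T.δ s (T.x b / T.x i) + C (T.x b / T.x i) * T.δ s (T.x i) := by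
    intro b
    conv_lhs => rw [h1 b]
    rw [vδ_mul]
  unfold tt
  rw [h2 a, h2 b]
  have h3 : (C (T.x a) : T.BB) = C (T.x i) * C (T.x a / T.x i) := by rw [← C_mul, ← h1]
  have h4 : (C (T.x b) : T.BB) = C (T.x i) * C (T.x b / T.x i) := by rw [← C_mul, ← h1]
  rw [h3, h4, zpow_ofNat, C_pow]
  ring

theorem vdiv_mem_A (i j : Fin (n + 2)) : T.x j / T.x i ∈ T.A i :=
  Algebra.subset_adjoin ⟨j, rfl⟩

/-- closure of `GG` under multiplication by an element which maps generators to generators -/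
theorem GG_map {k : ℕ} {e e' : ℤ} {m m' q q' : ℕ} {i : Fin (n + 2)} (w : T.BB)
    (h : ∀ a ∈ T.A i, ∀ s : Fin q → Fin k, ∀ l : Fin q → Fin (n + 2), ∑ r, ((s r : ℕ) + 1) = m →
      w * (C (T.x i ^ e * a) * ∏ r, T.δ (s r) (T.x (l r) / T.x i)) ∈ T.GG k e' m' q' i)
    {v : T.BB} (hv : v ∈ T.GG k e m q i) : w * v ∈ T.GG k e' m' q' i := by
  have h1 : T.GG k e m q i ≤ (T.GG k e' m' q' i).comap (LinearMap.mulLeft K w) := by
    refine Submodule.span_le.2 ?_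
    rintro _ ⟨a, ha, s, l, hs, rfl⟩
    exact h a ha s l hs
  exact h1 hv

theorem GG_mem {k : ℕ} {e : ℤ} {m q : ℕ} {i : Fin (n + 2)} {a : T.L} (ha : a ∈ T.A i) (s : Fin q → Fin k)
    (l : Fin q → Fin (n + 2)) (hs : ∑ r, ((s r : ℕ) + 1) = m) :
    C (T.x i ^ e * a) * ∏ r, T.δ (s r) (T.x (l r) / T.x i) ∈ T.GG k e m q i :=
  Submodule.subset_span ⟨a, ha, s, l, hs, rfl⟩

theorem GG_mulA {k : ℕ} {e : ℤ} {m q : ℕ} {i : Fin (n + 2)} {a : T.L} (ha : a ∈ T.A i) {v : T.BB}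
    (hv : v ∈ T.GG k e m q i) : C a * v ∈ T.GG k e m q i := by
  refine T.GG_map _ (fun b hb s l hs => ?_) hv
  rw [← mul_assoc, ← C_mul, show a * (T.x i ^ e * b) = T.x i ^ e * (a * b) by ring]
  exact T.GG_mem ((T.A i).mul_mem ha hb) s l hs

theorem GG_xpow {k : ℕ} {e : ℤ} {m q : ℕ} {i : Fin (n + 2)} (N : ℤ) {v : T.BB}
    (hv : v ∈ T.GG k e m q i) : C (T.x i ^ N) * v ∈ T.GG k (e + N) m q i := by
  refine T.GG_map _ (fun b hb s l hs => ?_) hv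
  rw [← mul_assoc, ← C_mul, show T.x i ^ N * (T.x i ^ e * b) = T.x i ^ (e + N) * b by
    rw [zpow_add₀ (T.x_ne i)]; ring]
  exact T.GG_mem hb s l hs

theorem GG_δ {k : ℕ} {e : ℤ} {m q : ℕ} {i : Fin (n + 2)} (s₀ : Fin k) (b : Fin (n + 2)) {v : T.BB}
    (hv : v ∈ T.GG k e m q i) : T.δ s₀ (T.x b / T.x i) * v ∈ T.GG k e (m + ((s₀ : ℕ) + 1)) (q + 1) i := by
  refine T.GG_map _ (fun a ha s l hs => ?_) hv
  have h1 := T.GG_mem (e := e) (m := m + ((s₀ : ℕ) + 1)) ha (Fin.cons s₀ s : Fin (q + 1) → Fin k)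
    (Fin.cons b l : Fin (q + 1) → Fin (n + 2)) (by rw [Fin.sum_univ_succ]; simp [hs, add_comm])
  rw [Fin.prod_univ_succ] at h1
  simp only [Fin.cons_zero, Fin.cons_succ] at h1
  rw [show T.δ s₀ (T.x b / T.x i) * (C (T.x i ^ e * a) * ∏ r, T.δ (s r) (T.x (l r) / T.x i)) =
    C (T.x i ^ e * a) * (T.δ s₀ (T.x b / T.x i) * ∏ r, T.δ (s r) (T.x (l r) / T.x i)) by ring]
  exact h1

theorem GG_x {k : ℕ} {e : ℤ} {m q : ℕ} {i : Fin (n + 2)} (j : Fin (n + 2)) {v : T.BB}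
    (hv : v ∈ T.GG k e m q i) : C (T.x j) * v ∈ T.GG k (e + 1) m q i := by
  have h1 := T.GG_xpow 1 (T.GG_mulA (T.vdiv_mem_A i j) hv)
  rw [← mul_assoc, ← C_mul, zpow_one, mul_div_cancel₀ _ (T.x_ne i)] at h1
  exact h1

theorem GG_tt {k : ℕ} {e : ℤ} {m q : ℕ} {i : Fin (n + 2)} (s₀ : Fin k) (a b : Fin (n + 2)) {v : T.BB}
    (hv : v ∈ T.GG k e m q i) : T.tt s₀ a b * v ∈ T.GG k (e + 2) (m + ((s₀ : ℕ) + 1)) (q + 1) i := by
  rw [T.tt_eq s₀ a b i, mul_assoc, sub_mul, mul_assoc, mul_assoc]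
  refine T.GG_xpow 2 (Submodule.sub_mem _ ?_ ?_)
  · exact T.GG_mulA (T.vdiv_mem_A i a) (T.GG_δ s₀ b hv)
  · exact T.GG_mulA (T.vdiv_mem_A i b) (T.GG_δ s₀ a hv)

theorem GP_map {k p p' : ℕ} {e e' : ℤ} {m m' q q' : ℕ} {i : Fin (n + 2)} (w : T.BB)
    (h : ∀ (c : Fin p → Fin n → Fin k) (m₁ q₁ : ℕ), ∀ g ∈ T.GG k (e + p * ((d : ℤ) - n - 2)) m₁ q₁ i,
      q₁ + p * n = q → m₁ + ∑ r, ∑ t, ((c r t : ℕ) + 1) = m → w * ((∏ r, T.ρ (c r)) * g) ∈ T.GP k p' e' m' q' i)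
    {v : T.BB} (hv : v ∈ T.GP k p e m q i) : w * v ∈ T.GP k p' e' m' q' i := by
  have h1 : T.GP k p e m q i ≤ (T.GP k p' e' m' q' i).comap (LinearMap.mulLeft K w) := by
    refine Submodule.span_le.2 ?_
    rintro _ ⟨c, m₁, q₁, g, hg, hq, hm, rfl⟩
    exact h c m₁ q₁ g hg hq hm
  exact h1 hv

theorem GP_mem {k p : ℕ} {e : ℤ} {m q : ℕ} {i : Fin (n + 2)} (c : Fin p → Fin n → Fin k) {m₁ q₁ : ℕ} {g : T.BB}
    (hg : g ∈ T.GG k (e + p * ((d : ℤ) - n - 2)) m₁ q₁ i) (hq : q₁ + p * n = q)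
    (hm : m₁ + ∑ r, ∑ t, ((c r t : ℕ) + 1) = m) : (∏ r, T.ρ (c r)) * g ∈ T.GP k p e m q i :=
  Submodule.subset_span ⟨c, m₁, q₁, g, hg, hq, hm, rfl⟩

/-- An element which multiplies `GG` multiplies `GP`. -/
theorem GP_of_GG {k p : ℕ} {e : ℤ} {m q : ℕ} {i : Fin (n + 2)} (f : ℤ) (μ κ : ℕ) (w : T.BB)
    (h : ∀ (e₁ : ℤ) (m₁ q₁ : ℕ), ∀ g ∈ T.GG k e₁ m₁ q₁ i, w * g ∈ T.GG k (e₁ + f) (m₁ + μ) (q₁ + κ) i)
    {v : T.BB} (hv : v ∈ T.GP k p e m q i) : w * v ∈ T.GP k p (e + f) (m + μ) (q + κ) i := by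
  refine T.GP_map w (fun c m₁ q₁ g hg hq hm => ?_) hv
  rw [mul_left_comm]
  have h1 := h _ _ _ g hg
  rw [show e + p * ((d : ℤ) - n - 2) + f = (e + f) + p * ((d : ℤ) - n - 2) by ring] at h1
  exact T.GP_mem c h1 (by omega) (by omega)

theorem GP_xpow' {k p : ℕ} {e : ℤ} {m q : ℕ} {i : Fin (n + 2)} (N : ℤ) {v : T.BB}
    (hv : v ∈ T.GP k p e m q i) : C (T.x i ^ N) * v ∈ T.GP k p (e + N) m q i :=
  T.GP_of_GG N 0 0 _ (fun _ _ _ _ hg => T.GG_xpow N hg) hv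

theorem GP_x {k p : ℕ} {e : ℤ} {m q : ℕ} {i : Fin (n + 2)} (j : Fin (n + 2)) {v : T.BB}
    (hv : v ∈ T.GP k p e m q i) : C (T.x j) * v ∈ T.GP k p (e + 1) m q i :=
  T.GP_of_GG 1 0 0 _ (fun _ _ _ _ hg => T.GG_x j hg) hv

theorem GP_tt {k p : ℕ} {e : ℤ} {m q : ℕ} {i : Fin (n + 2)} (s₀ : Fin k) (a b : Fin (n + 2)) {v : T.BB}
    (hv : v ∈ T.GP k p e m q i) : T.tt s₀ a b * v ∈ T.GP k p (e + 2) (m + ((s₀ : ℕ) + 1)) (q + 1) i :=
  T.GP_of_GG 2 _ 1 _ (fun _ _ _ _ hg => T.GG_tt s₀ a b hg) hv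

theorem GP_ρ {k p : ℕ} {e : ℤ} {m q : ℕ} {i : Fin (n + 2)} (c₀ : Fin n → Fin k) {v : T.BB}
    (hv : v ∈ T.GP k p e m q i) :
    T.ρ c₀ * v ∈ T.GP k (p + 1) (e - ((d : ℤ) - n - 2)) (m + ∑ t, ((c₀ t : ℕ) + 1)) (q + n) i := by
  refine T.GP_map _ (fun c m₁ q₁ g hg hq hm => ?_) hv
  have h1 : g ∈ T.GG k ((e - ((d : ℤ) - n - 2)) + ((p + 1 : ℕ) : ℤ) * ((d : ℤ) - n - 2)) m₁ q₁ i := by
    rw [show (e - ((d : ℤ) - n - 2)) + ((p + 1 : ℕ) : ℤ) * ((d : ℤ) - n - 2) =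
      e + p * ((d : ℤ) - n - 2) by push_cast; ring]
    exact hg
  have h2 := T.GP_mem (m := m + ∑ t, ((c₀ t : ℕ) + 1)) (q := q + n)
    (Fin.cons c₀ c : Fin (p + 1) → Fin n → Fin k) h1 (by rw [← hq]; ring)
    (by rw [Fin.sum_univ_succ]; simp only [Fin.cons_zero, Fin.cons_succ]; omega)
  rw [Fin.prod_univ_succ] at h2
  simp only [Fin.cons_zero, Fin.cons_succ] at h2
  rw [← mul_assoc]
  exact h2

theorem GP_one (k : ℕ) (i : Fin (n + 2)) : (1 : T.BB) ∈ T.GP k 0 0 0 0 i := by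
  have h1 : (1 : T.BB) ∈ T.GG k (0 + ((0 : ℕ) : ℤ) * ((d : ℤ) - n - 2)) 0 0 i := by
    have h2 := T.GG_mem (e := 0 + ((0 : ℕ) : ℤ) * ((d : ℤ) - n - 2)) (m := 0) (i := i) (T.A i).one_mem
      (Fin.elim0 : Fin 0 → Fin k) (Fin.elim0 : Fin 0 → Fin (n + 2)) (by simp)
    simpa using h2
  have h3 := T.GP_mem (m := 0) (q := 0) (Fin.elim0 : Fin 0 → Fin n → Fin k) h1 (by simp) (by simp)
  simpa using h3

theorem GP_bot' (k p : ℕ) (e : ℤ) (m q : ℕ) (i : Fin (n + 2)) (h : q < p * n) : T.GP k p e m q i = ⊥ := by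
  unfold GP
  rw [Submodule.span_eq_bot]
  rintro v ⟨c, m₁, q₁, g, -, hq, -⟩
  omega

/-- the property in the backward dictionary, for all coefficients -/
theorem dict_from_aux (k : ℕ) (i : Fin (n + 2)) (P : VS K n k) : ∀ a : Fin 4 →₀ ℕ, coeff a (T.φ k P) ∈
    T.GP k (a 2) (a 0 + 2 * a 1 - a 2 * ((d : ℤ) - n - 2)) (a 3) (a 1 + a 2 * n) i := by
  classical
  have key : ∀ (u : T.VB) (s : Fin 4 →₀ ℕ) (r : T.BB),
      (∀ a : Fin 4 →₀ ℕ, coeff a u ∈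
        T.GP k (a 2) (a 0 + 2 * a 1 - a 2 * ((d : ℤ) - n - 2)) (a 3) (a 1 + a 2 * n) i) →
      (∀ (p : ℕ) (e : ℤ) (m q : ℕ), ∀ v ∈ T.GP k p e m q i,
        r * v ∈ T.GP k (p + s 2) (e + (s 0 + 2 * s 1 - s 2 * ((d : ℤ) - n - 2))) (m + s 3)
          (q + (s 1 + s 2 * n)) i) →
      ∀ a : Fin 4 →₀ ℕ, coeff a (u * monomial s r) ∈
        T.GP k (a 2) (a 0 + 2 * a 1 - a 2 * ((d : ℤ) - n - 2)) (a 3) (a 1 + a 2 * n) i := by
    intro u s r hu hr a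
    rw [coeff_mul_monomial']
    split_ifs with h
    · obtain ⟨b, rfl⟩ : ∃ b, a = b + s := ⟨a - s, (tsub_add_cancel_of_le h).symm⟩
      rw [add_tsub_cancel_right, mul_comm (coeff b u) r]
      have h1 := hr _ _ _ _ _ (hu b)
      simp only [Finsupp.add_apply]
      rw [show (b 1 + s 1 + (b 2 + s 2) * n) = b 1 + b 2 * n + (s 1 + s 2 * n) by ring]
      have h2 : (((b 0 + s 0 : ℕ) : ℤ) + 2 * ((b 1 + s 1 : ℕ) : ℤ) - ((b 2 + s 2 : ℕ) : ℤ) * ((d : ℤ) - n - 2)) =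
        ((b 0 : ℤ) + 2 * b 1 - b 2 * ((d : ℤ) - n - 2)) + (s 0 + 2 * s 1 - s 2 * ((d : ℤ) - n - 2)) := by
        push_cast; ring
      rw [h2]
      exact h1
    · exact Submodule.zero_mem _
  have hC : ∀ b : VA K n k, ∀ a : Fin 4 →₀ ℕ, coeff a (T.φ k (C b)) ∈
      T.GP k (a 2) (a 0 + 2 * a 1 - a 2 * ((d : ℤ) - n - 2)) (a 3) (a 1 + a 2 * n) i := by
    intro b
    induction b using MvPolynomial.induction_on with
    | C r =>
      intro a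
      rw [φ_C', ← algebraMap_eq, AlgHom.commutes, IsScalarTower.algebraMap_apply K T.BB T.VB, algebraMap_eq,
        coeff_C]
      split_ifs with h
      · subst h
        have h1 := (T.GP k 0 0 0 0 i).smul_mem r (T.GP_one k i)
        rw [Algebra.smul_def, mul_one] at h1
        simpa using h1
      · exact Submodule.zero_mem _
    | add p q hp hq =>
      intro a
      rw [C_add, map_add, coeff_add]
      exact Submodule.add_mem _ (hp a) (hq a)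
    | mul_X p j hp =>
      rw [C_mul, map_mul, φ_C' T k (X j), φA_X]
      rcases j with ⟨s, a, b⟩ | c
      · refine key _ _ _ hp fun p e m q v hv => ?_
        have h1 := T.GP_tt s a b hv
        simpa [mon] using h1
      · refine key _ _ _ hp fun p e m q v hv => ?_
        have h1 := T.GP_ρ c hv
        simpa [mon, sub_eq_add_neg] using h1
  induction P using MvPolynomial.induction_on with
  | C b => exact hC b
  | add p q hp hq =>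
    intro a
    rw [map_add, coeff_add]
    exact Submodule.add_mem _ (hp a) (hq a)
  | mul_X p j hp =>
    rw [map_mul, φ_X']
    refine key _ _ _ hp fun p e m q v hv => ?_
    have h1 := T.GP_x j hv
    simpa [mon] using h1

theorem dict_from' (k : ℕ) (P : VS K n k) (c q' p m : ℕ) (i : Fin (n + 2)) :
    coeff (mon c q' p m) (T.φ k P) ∈
      T.GP k p (c + 2 * q' - p * ((d : ℤ) - n - 2)) m (q' + p * n) i := by
  have h1 := T.dict_from_aux k i P (mon c q' p m)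
  simpa [mon] using h1

end

end Pool.Agent.H47.UG.FF
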