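import Pool.Agent.H79.UG.V1b

/-!
# VAN, part V1: the forward dictionary
-/

set_option autoImplicit false

open MvPolynomial

namespace Pool.Agent.H47.UG.FF

variable {K : Type} [Field K] {n d : ℕ} {F : HP K n} (T : FF d F)

section

theorem vmem_A (i : Fin (n + 2)) {v : T.L} (hv : v ∈ T.A i) : ∃ (s : ℕ) (P : HP K n), P.IsHomogeneous s ∧
    v = aeval T.x P / T.x i ^ s := by
  have hi := T.x_ne i
  induction hv using Algebra.adjoin_induction with
  | mem v hv =>
    obtain ⟨l, rfl⟩ := hv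
    exact ⟨1, X l, isHomogeneous_X _ _, by simp⟩
  | algebraMap r => exact ⟨0, C r, isHomogeneous_C _ _, by simp⟩
  | add u v _ _ hu hv =>
    obtain ⟨s, P, hP, rfl⟩ := hu
    obtain ⟨s', P', hP', rfl⟩ := hv
    refine ⟨s + s', P * X i ^ s' + X i ^ s * P', ?_, ?_⟩
    · refine IsHomogeneous.add (hP.mul ?_) (IsHomogeneous.mul ?_ hP')
      · simpa using (isHomogeneous_X K i).pow s'
      · simpa using (isHomogeneous_X K i).pow s
    · rw [map_add, map_mul, map_mul, map_pow, map_pow, aeval_X, pow_add]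
      field_simp
  | mul u v _ _ hu hv =>
    obtain ⟨s, P, hP, rfl⟩ := hu
    obtain ⟨s', P', hP', rfl⟩ := hv
    refine ⟨s + s', P * P', hP.mul hP', ?_⟩
    rw [map_mul, pow_add]
    field_simp

theorem vprod_mon {ι : Type} (s : Finset ι) (f : ι → ℕ) (g : ι → T.BB) :
    ∏ i ∈ s, monomial (mon (f i) 0 0 0) (g i) = monomial (mon (∑ i ∈ s, f i) 0 0 0) (∏ i ∈ s, g i) := by
  classical
  induction s using Finset.induction_on with
  | empty => simp [mon_zero]
  | insert i s hi ih =>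
    rw [Finset.prod_insert hi, Finset.prod_insert hi, Finset.sum_insert hi, ih, monomial_mul, mon_add]

theorem φ_map (k s : ℕ) (P : HP K n) (hP : P.IsHomogeneous s) :
    T.φ k (map (algebraMap K (VA K n k)) P) = monomial (mon s 0 0 0) (C (aeval T.x P)) := by
  classical
  rw [P.as_sum, map_sum, map_sum, map_sum, map_sum, map_sum]
  refine Finset.sum_congr rfl fun α hα => ?_
  have h2 : ∑ i, α i = s := by
    have h3 := hP (mem_support_iff.1 hα)
    rw [← h3, Finsupp.weight_apply, Finsupp.sum_fintype _ _ (by simp)]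
    simp
  rw [map_monomial, φ, eval₂Hom_monomial, Finsupp.prod_fintype _ _ (by simp), aeval_monomial,
    Finsupp.prod_fintype _ _ (by simp)]
  have h4 : ∀ i, (monomial (mon 1 0 0 0) (C (T.x i) : T.BB)) ^ α i =
      monomial (mon (α i) 0 0 0) (C (T.x i ^ α i) : T.BB) := by
    intro i
    rw [monomial_pow, mon_smul, ← C_pow, mul_one, mul_zero]
  rw [Finset.prod_congr rfl fun i _ => h4 i, vprod_mon, h2]
  have h5 : (T.φA k).toRingHom (algebraMap K (VA K n k) (coeff α P)) =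
      C (C (algebraMap K T.L (coeff α P))) := by
    show T.φA k (algebraMap K (VA K n k) (coeff α P)) = _
    rw [AlgHom.commutes, IsScalarTower.algebraMap_apply K T.BB T.VB,
      IsScalarTower.algebraMap_apply K T.L T.BB, algebraMap_eq, algebraMap_eq]
  rw [h5, C_mul_monomial, ← map_prod, ← C_mul]

theorem vδ_one (s : ℕ) : T.δ s (1 : T.L) = 0 := by
  unfold δ
  exact Finset.sum_eq_zero fun l _ => by rw [Derivation.map_one_eq_zero, C_0, zero_mul]

theorem tt_self (s : ℕ) (i l : Fin (n + 2)) : T.tt s i l = C (T.x i ^ 2) * T.δ s (T.x l / T.x i) := by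
  rw [T.tt_eq s i l i, div_self (T.x_ne i), vδ_one, C_1, one_mul, mul_zero, sub_zero, zpow_ofNat]

theorem vprod_tt (k q : ℕ) (i : Fin (n + 2)) (s : Fin q → Fin k) (l : Fin q → Fin (n + 2)) :
    T.φA k (∏ r, X (Sum.inl (s r, i, l r))) = monomial (mon 0 q 0 (∑ r, ((s r : ℕ) + 1)))
      (C (T.x i ^ (2 * q)) * ∏ r, T.δ (s r) (T.x (l r) / T.x i)) := by
  induction q with
  | zero => simp [mon_zero]
  | succ q ih =>
    rw [Fin.prod_univ_succ, map_mul, ih (fun r => s r.succ) (fun r => l r.succ), φA_X]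
    show monomial (mon 0 1 0 ((s 0 : ℕ) + 1)) (T.tt (s 0) i (l 0)) * _ = _
    rw [monomial_mul, mon_add, Fin.sum_univ_succ, Fin.prod_univ_succ, tt_self, Nat.mul_succ, pow_add, C_mul,
      add_zero, add_comm 1 q]
    congr 1
    ring

theorem dict_GG (k m q : ℕ) (e : ℤ) (i : Fin (n + 2)) (v : T.BB) (hv : v ∈ T.GG k e m q i) :
    ∃ N₀ : ℕ, ∀ N ≥ N₀, ∀ c : ℕ, (c : ℤ) = e - 2 * q + N →
    ∃ P : VS K n k, P.IsHomogeneous c ∧ T.φ k P = monomial (mon c q 0 m) (C (T.x i ^ N) * v) := by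
  unfold GG at hv
  induction hv using Submodule.span_induction with
  | mem v hv =>
    obtain ⟨a, ha, s, l, hs, rfl⟩ := hv
    obtain ⟨t, P₀, hP₀, rfl⟩ := T.vmem_A i ha
    refine ⟨(t + 2 * q - e).toNat, fun N hN c hc => ?_⟩
    obtain ⟨c', rfl⟩ : ∃ c', c = c' + t := ⟨c - t, by omega⟩
    refine ⟨X i ^ c' * map (algebraMap K (VA K n k)) P₀ * C (∏ r, X (Sum.inl (s r, i, l r))), ?_, ?_⟩
    · have h1 : ((X i : VS K n k) ^ c').IsHomogeneous c' := by
        simpa using (isHomogeneous_X (VA K n k) i).pow c'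
      have h2 := (h1.mul (hP₀.map (algebraMap K (VA K n k)))).mul (isHomogeneous_C (Fin (n + 2))
        (∏ r, X (Sum.inl (s r, i, l r)) : VA K n k))
      rwa [add_zero] at h2
    · rw [map_mul, map_mul, T.φ_X_pow', T.φ_map k t P₀ hP₀, φ_C', vprod_tt, monomial_mul, monomial_mul,
        mon_add, mon_add, hs]
      simp only [add_zero, zero_add]
      congr 1
      rw [← C_mul, ← mul_assoc, ← C_mul, ← mul_assoc, ← C_mul]
      congr 2
      have hi := T.x_ne i
      have h3 : T.x i ^ N * T.x i ^ e = T.x i ^ c' * T.x i ^ (2 * q) * T.x i ^ t := by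
        rw [← zpow_natCast, ← zpow_natCast (T.x i) c', ← zpow_natCast (T.x i) (2 * q), ← zpow_natCast (T.x i) t,
          ← zpow_add₀ hi, ← zpow_add₀ hi, ← zpow_add₀ hi]
        congr 1
        push_cast at hc ⊢
        omega
      rw [← mul_assoc, h3]
      field_simp
  | zero => exact ⟨0, fun N _ c _ => ⟨0, isHomogeneous_zero _ _ _, by simp⟩⟩
  | add u v _ _ hu hv =>
    obtain ⟨N₁, h1⟩ := hu
    obtain ⟨N₂, h2⟩ := hv
    refine ⟨max N₁ N₂, fun N hN c hc => ?_⟩
    obtain ⟨P, hP, hPv⟩ := h1 N (le_trans (le_max_left _ _) hN) c hc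
    obtain ⟨Q, hQ, hQv⟩ := h2 N (le_trans (le_max_right _ _) hN) c hc
    exact ⟨P + Q, hP.add hQ, by rw [map_add, hPv, hQv, mul_add, map_add]⟩
  | smul r u _ hu =>
    obtain ⟨N₁, h1⟩ := hu
    refine ⟨N₁, fun N hN c hc => ?_⟩
    obtain ⟨P, hP, hPv⟩ := h1 N hN c hc
    refine ⟨C (C r) * P, ?_, ?_⟩
    · have h2 := (isHomogeneous_C (Fin (n + 2)) (C r : VA K n k)).mul hP
      rwa [zero_add] at h2
    · rw [map_mul, hPv, φ_C', ← algebraMap_eq, AlgHom.commutes, IsScalarTower.algebraMap_apply K T.BB T.VB,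
        algebraMap_eq, C_mul_monomial, Algebra.smul_def]
      congr 1
      ring

theorem dict_to' (k p m q' : ℕ) (e : ℤ) (i : Fin (n + 2)) (v : T.BB)
    (hv : v ∈ T.GP k p e m (q' + p * n) i) : ∃ N₀ : ℕ, ∀ N ≥ N₀, ∀ c : ℕ,
    (c : ℤ) = e + p * ((d : ℤ) - n - 2) - 2 * q' + N →
    ∃ P : VS K n k, P.IsHomogeneous c ∧ T.φ k P = monomial (mon c q' p m) (C (T.x i ^ N) * v) := by
  unfold GP at hv
  induction hv using Submodule.span_induction with
  | mem v hv =>
    obtain ⟨c₀, m₁, q₁, g, hg, hq, hm, rfl⟩ := hv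
    obtain rfl : q₁ = q' := by omega
    obtain ⟨N₀, h⟩ := T.dict_GG k m₁ q₁ _ i g hg
    refine ⟨N₀, fun N hN c hc => ?_⟩
    obtain ⟨P, hP, hPg⟩ := h N hN c hc
    have hprod : ∀ (p : ℕ) (c₀ : Fin p → Fin n → Fin k), T.φA k (∏ r, X (Sum.inr (c₀ r))) =
        monomial (mon 0 0 p (∑ r, ∑ t, ((c₀ r t : ℕ) + 1))) (∏ r, T.ρ (c₀ r)) := by
      intro p
      induction p with
      | zero => intro c₀; simp [mon_zero]
      | succ p ih =>
        intro c₀
        rw [Fin.prod_univ_succ, map_mul, ih (fun r => c₀ r.succ), φA_X]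
        show monomial (mon 0 0 1 (∑ t, ((c₀ 0 t : ℕ) + 1))) (T.ρ (c₀ 0)) * _ = _
        rw [monomial_mul, mon_add, Fin.sum_univ_succ, Fin.prod_univ_succ, add_zero, add_comm 1 p]
    refine ⟨P * C (∏ r, X (Sum.inr (c₀ r))), ?_, ?_⟩
    · have h2 := hP.mul (isHomogeneous_C (Fin (n + 2)) (∏ r, X (Sum.inr (c₀ r)) : VA K n k))
      rwa [add_zero] at h2
    · rw [map_mul, hPg, φ_C', hprod, monomial_mul, mon_add, ← hm]
      simp only [add_zero, zero_add]
      congr 1
      ring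
  | zero => exact ⟨0, fun N _ c _ => ⟨0, isHomogeneous_zero _ _ _, by simp⟩⟩
  | add u v _ _ hu hv =>
    obtain ⟨N₁, h1⟩ := hu
    obtain ⟨N₂, h2⟩ := hv
    refine ⟨max N₁ N₂, fun N hN c hc => ?_⟩
    obtain ⟨P, hP, hPv⟩ := h1 N (le_trans (le_max_left _ _) hN) c hc
    obtain ⟨Q, hQ, hQv⟩ := h2 N (le_trans (le_max_right _ _) hN) c hc
    exact ⟨P + Q, hP.add hQ, by rw [map_add, hPv, hQv, mul_add, map_add]⟩
  | smul r u _ hu =>
    obtain ⟨N₁, h1⟩ := hu
    refine ⟨N₁, fun N hN c hc => ?_⟩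
    obtain ⟨P, hP, hPv⟩ := h1 N hN c hc
    refine ⟨C (C r) * P, ?_, ?_⟩
    · have h2 := (isHomogeneous_C (Fin (n + 2)) (C r : VA K n k)).mul hP
      rwa [zero_add] at h2
    · rw [map_mul, hPv, φ_C', ← algebraMap_eq, AlgHom.commutes, IsScalarTower.algebraMap_apply K T.BB T.VB,
        algebraMap_eq, C_mul_monomial, Algebra.smul_def]
      congr 1
      ring

end

end Pool.Agent.H47.UG.FF
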