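import Pool.Agent.H47.UG.Ch

/-!
# VAN: the multigraded ring and the map to the jet differentials

`VS = A[X_0..X_{n+1}]`, `A = K[T_(s,a,b), Om_c]`; `φ : VS → BB[τ, θ, ω, μ]`,
`X_i ↦ x_i τ`, `T_(s,a,b) ↦ (x_a δ_s x_b - x_b δ_s x_a) θ μ^{s+1}`, `Om_c ↦ ρ_c ω μ^{|c|}`.
-/

set_option autoImplicit false

open MvPolynomial

namespace Pool.Agent.H47.UG.FF

variable {K : Type} [Field K] {n d : ℕ} {F : HP K n} (T : FF d F)

/-- Index set of the generators `T_(s,a,b)`, `Om_c`. -/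
abbrev VIx (n k : ℕ) := (Fin k × Fin (n + 2) × Fin (n + 2)) ⊕ (Fin n → Fin k)

/-- The coefficient ring. -/
abbrev VA (K : Type) [Field K] (n k : ℕ) := MvPolynomial (VIx n k) K

/-- The graded ring. -/
abbrev VS (K : Type) [Field K] (n k : ℕ) := MvPolynomial (Fin (n + 2)) (VA K n k)

/-- The codomain: `BB[τ, θ, ω, μ]`. -/
abbrev VB := MvPolynomial (Fin 4) T.BB

/-- The exponent of `τ^c θ^q ω^p μ^m`. -/
noncomputable def mon (c q p m : ℕ) : Fin 4 →₀ ℕ := Finsupp.equivFunOnFinite.symm ![c, q, p, m]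

/-- `x_a δ_s x_b - x_b δ_s x_a` -/
noncomputable def tt (s : ℕ) (a b : Fin (n + 2)) : T.BB :=
  C (T.x a) * T.δ s (T.x b) - C (T.x b) * T.δ s (T.x a)

/-- The images of the generators of the coefficient ring. -/
noncomputable def vgen {k : ℕ} : VIx n k → T.VB
  | Sum.inl (s, a, b) => monomial (mon 0 1 0 ((s : ℕ) + 1)) (T.tt s a b)
  | Sum.inr c => monomial (mon 0 0 1 (∑ t, ((c t : ℕ) + 1))) (T.ρ c)

/-- The map on the coefficient ring. -/
noncomputable def φA (k : ℕ) : VA K n k →ₐ[K] T.VB := aeval T.vgen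

/-- The map. -/
noncomputable def φ (k : ℕ) : VS K n k →+* T.VB :=
  eval₂Hom (T.φA k).toRingHom fun i => monomial (mon 1 0 0 0) (C (T.x i))

end Pool.Agent.H47.UG.FF
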